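import Pool.Agent.TH57.FF.La
import Pool.Agent.TH57.Thr.KGr

set_option autoImplicit false
set_option linter.style.haveILetI false
set_option linter.unusedSectionVars false

/-! Matrices of small norm over the integral group ring of a torsion-free group have cokernels with
finite free resolutions. -/

namespace TH57.FF

open Matrix Multiplicative TH57.Thr

/-- integer matrices -/
theorem Res_int {ι κ : Type} [Fintype ι] (θ : Matrix ι κ ℤ) : Res 2 θ := by
  classical
  apply Res_mono
  obtain ⟨n, b⟩ := Submodule.basisOfPid (Pi.basisFun ℤ ι) (LinearMap.ker θ.vecMulLinear)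
  let Y : Matrix (Fin n) ι ℤ := fun i => (b i : ι → ℤ)
  have hY : ∀ y : Fin n → ℤ, y ᵥ* Y = ((∑ i, y i • b i : LinearMap.ker θ.vecMulLinear) : ι → ℤ) := by
    intro y
    rw [AddSubmonoidClass.coe_finsetSum, Matrix.vecMul_eq_sum]
    rfl
  refine ⟨Fin n, inferInstance, Y, fun x => ?_, ?_⟩
  · constructor
    · intro hx
      have hx' : x ∈ LinearMap.ker θ.vecMulLinear := hx
      refine ⟨fun i => b.repr ⟨x, hx'⟩ i, ?_⟩
      rw [hY, b.sum_repr]
    · rintro ⟨y, rfl⟩
      rw [hY]
      exact (∑ i, y i • b i : LinearMap.ker θ.vecMulLinear).2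
  · intro y hy
    rw [hY] at hy
    have h1 : (∑ i, y i • b i) = 0 := Subtype.ext hy
    have h2 := congrArg b.repr h1
    funext j
    have h3 := DFunLike.congr_fun h2 j
    rw [map_sum, Finsupp.finsetSum_apply] at h3
    simp only [map_smul, Finsupp.smul_apply, Module.Basis.repr_self, Finsupp.single_apply,
      smul_eq_mul, mul_ite, mul_one, mul_zero, map_zero] at h3
    rw [Finset.sum_ite_eq' Finset.univ j, if_pos (Finset.mem_univ _)] at h3
    exact h3

section rb

variable {Γ : Type} [Group Γ]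

theorem RB_int : RB (Int.castRingHom (MonoidAlgebra ℤ Γ)) Γ
    (fun g => MonoidAlgebra.single g (1 : ℤ)) where
  span := by
    intro v
    refine ⟨v.coeff, ?_⟩
    have h1 : ∀ g z, MonoidAlgebra.single g (1 : ℤ) * Int.castRingHom (MonoidAlgebra ℤ Γ) z
        = MonoidAlgebra.single g z := by
      intro g z
      change MonoidAlgebra.single g (1 : ℤ) * ((z : ℤ) : MonoidAlgebra ℤ Γ) = _
      rw [int_single, MonoidAlgebra.single_mul_single, mul_one, one_mul]
    simp only [h1]
    ext g
    rw [Finsupp.sum, MonoidAlgebra.coeff_sum, Finsupp.finsetSum_apply]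
    have h3 := DFunLike.congr_fun (Finsupp.sum_single v.coeff) g
    rw [Finsupp.sum, Finsupp.finsetSum_apply] at h3
    exact h3
  indep := by
    intro w hw
    have h1 : ∀ g z, MonoidAlgebra.single g (1 : ℤ) * Int.castRingHom (MonoidAlgebra ℤ Γ) z
        = MonoidAlgebra.single g z := by
      intro g z
      change MonoidAlgebra.single g (1 : ℤ) * ((z : ℤ) : MonoidAlgebra ℤ Γ) = _
      rw [int_single, MonoidAlgebra.single_mul_single, mul_one, one_mul]
    simp only [h1] at hw
    ext g
    have h2 := congrArg (fun x : MonoidAlgebra ℤ Γ => x.coeff g) hw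
    simp only [Finsupp.sum, MonoidAlgebra.coeff_sum, Finsupp.finsetSum_apply,
      MonoidAlgebra.coeff_single, MonoidAlgebra.coeff_zero,
      Finsupp.zero_apply] at h2
    have h3 := DFunLike.congr_fun (Finsupp.sum_single w) g
    rw [Finsupp.sum, Finsupp.finsetSum_apply] at h3
    rw [← h3]
    exact h2

variable {K : Type} [Group K] (f : K →* Γ) (hf : Function.Injective f)

theorem coeff_map (x : MonoidAlgebra ℤ K) (k : K) (hf : Function.Injective f) :
    (MonoidAlgebra.mapDomainRingHom ℤ f x).coeff (f k) = x.coeff k := by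
  rw [MonoidAlgebra.mapDomainRingHom_apply, MonoidAlgebra.coeff_mapDomain,
    Finsupp.mapDomain_apply hf]

theorem coeff_map_not (x : MonoidAlgebra ℤ K) (g : Γ) (hg : g ∉ f.range) :
    (MonoidAlgebra.mapDomainRingHom ℤ f x).coeff g = 0 := by
  rw [MonoidAlgebra.mapDomainRingHom_apply, MonoidAlgebra.coeff_mapDomain,
    Finsupp.mapDomain_of_notMem_range]
  rintro ⟨k, hk⟩
  exact hg ⟨k, hk⟩

theorem RB_group (hf : Function.Injective f) : RB (MonoidAlgebra.mapDomainRingHom ℤ f)
    (Γ ⧸ f.range) (fun q => MonoidAlgebra.single q.out (1 : ℤ)) where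
  span := by
    classical
    intro v
    induction v using MonoidAlgebra.induction_linear with
    | zero => exact ⟨0, by simp⟩
    | add x y hx hy =>
      obtain ⟨w, hw⟩ := hx
      obtain ⟨w', hw'⟩ := hy
      refine ⟨w + w', ?_⟩
      rw [Finsupp.sum_add_index', hw, hw']
      · intro a; rw [map_zero, mul_zero]
      · intro a b c; rw [map_add, mul_add]
    | single g z =>
      have h1 : (QuotientGroup.mk g : Γ ⧸ f.range).out⁻¹ * g ∈ f.range := by
        rw [← QuotientGroup.eq]
        exact Quotient.out_eq _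
      obtain ⟨k, hk⟩ := h1
      refine ⟨Finsupp.single (QuotientGroup.mk g) (MonoidAlgebra.single k z), ?_⟩
      rw [Finsupp.sum_single_index (by rw [map_zero, mul_zero]),
        MonoidAlgebra.mapDomainRingHom_apply, MonoidAlgebra.mapDomain_single,
        MonoidAlgebra.single_mul_single, one_mul, hk, mul_inv_cancel_left]
  indep := by
    classical
    intro w hw
    ext q k
    have h2 := congrArg (fun x : MonoidAlgebra ℤ Γ => x.coeff (q.out * f k)) hw
    simp only [Finsupp.sum, MonoidAlgebra.coeff_sum, Finsupp.finsetSum_apply,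
      MonoidAlgebra.coeff_zero, Finsupp.zero_apply, MonoidAlgebra.coeff_single_mul_apply,
      one_mul] at h2
    rw [Finset.sum_eq_single q] at h2
    · rw [inv_mul_cancel_left, coeff_map f _ _ hf] at h2
      rw [h2]
      rfl
    · intro q' _ hq'
      apply coeff_map_not
      intro h3
      apply hq'
      rw [← mul_assoc] at h3
      have h4 : q'.out⁻¹ * q.out ∈ f.range := by
        have := f.range.mul_mem h3 (f.range.inv_mem ⟨k, rfl⟩)
        rwa [mul_inv_cancel_right] at this
      rw [← QuotientGroup.eq] at h4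
      rwa [QuotientGroup.out_eq', QuotientGroup.out_eq'] at h4
    · intro h3
      rw [Finsupp.notMem_support_iff.1 h3]
      simp

end rb

section group

variable {Γ : Type} [Group Γ] (htf : ∀ g : Γ, ∀ k : ℕ, 0 < k → g ^ k = 1 → g = 1)

theorem Res_trivial {ι κ : Type} [Fintype ι] (M : Matrix ι κ (MonoidAlgebra ℤ Γ))
    (hM : ∀ i j g, (M i j).coeff g ≠ 0 → g = 1) : Res 2 M := by
  let au : MonoidAlgebra ℤ Γ →+* ℤ := (MonoidAlgebra.lift ℤ ℤ Γ 1).toRingHom
  have hau : ∀ z : ℤ, au (MonoidAlgebra.single 1 z) = z := fun z => by simp [au]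
  have hMM : (M.map au).map (Int.castRingHom (MonoidAlgebra ℤ Γ)) = M := by
    ext1 i j
    change ((au (M i j) : ℤ) : MonoidAlgebra ℤ Γ) = M i j
    have h2 : M i j = MonoidAlgebra.single 1 ((M i j).coeff 1) := by
      ext g
      by_cases hg : g = 1
      · subst hg; simp
      · have h3 : (M i j).coeff g = 0 := by
          by_contra h
          exact hg (hM i j g h)
        simp [h3, hg]
    rw [h2, hau, int_single]
  rw [← hMM]
  exact Res_map _ _ _ RB_int 2 _ (Res_int _)

include htf in
theorem Res_cyclic {ι κ : Type} [Fintype ι] (M : Matrix ι κ (MonoidAlgebra ℤ Γ))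
    (C : Subgroup Γ) (hC : IsCyclic C)
    (hM : ∀ i j g, (M i j).coeff g ≠ 0 → g ∈ C) : Res 2 M := by
  classical
  rw [Subgroup.isCyclic_iff_exists_zpowers_eq_top] at hC
  obtain ⟨t, rfl⟩ := hC
  by_cases ht : t = 1
  · subst ht
    exact Res_trivial M fun i j g h => by simpa using hM i j g h
  let f : Multiplicative ℤ →* Γ := zpowersHom Γ t
  have hf : Function.Injective f := by
    rw [injective_iff_map_eq_one]
    intro k hk
    obtain ⟨k, rfl⟩ := ofAdd.surjective k
    have h1 : t ^ k = 1 := by simpa [f] using hk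
    by_contra h2
    have h3 : k ≠ 0 := fun h => h2 (by rw [h]; rfl)
    apply ht
    apply htf t k.natAbs (Int.natAbs_pos.2 h3)
    rcases Int.natAbs_eq k with h4 | h4
    · rw [h4, _root_.zpow_natCast] at h1; exact h1
    · rw [h4, _root_.zpow_neg, _root_.zpow_natCast, inv_eq_one] at h1; exact h1
  have hMM : (cm f hf M).map (MonoidAlgebra.mapDomainRingHom ℤ f) = M := cm_map f hf M
    fun i j g h => by
      obtain ⟨k, hk⟩ := Subgroup.mem_zpowers_iff.1 (hM i j g h)
      exact ⟨ofAdd k, by simpa [f] using hk⟩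
  rw [← hMM]
  exact Res_map _ _ _ (RB_group f hf) 2 _ (Res_La _)

include htf in
theorem Res_pattern : ∀ (N : ℕ) (ι κ : Type) [Fintype κ] [DecidableEq κ] [Fintype ι]
    [DecidableEq ι], Fintype.card ι + Fintype.card κ ≤ N →
    ∀ (β : Type) (r : ι → β) (s : κ → β) (C : β → Subgroup Γ) (_ : ∀ b, IsCyclic (C b))
      (M : Matrix ι κ (MonoidAlgebra ℤ Γ))
      (_ : ∀ i j g, (M i j).coeff g ≠ 0 → r i = s j ∧ g ∈ C (r i)), Res 2 M := by
  classical
  intro N
  induction N with
  | zero =>
    intro ι κ _ _ _ _ hcard β r s C hC M hM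
    have h1 : IsEmpty κ := Fintype.card_eq_zero_iff.1 (by omega)
    have h2 : IsEmpty ι := Fintype.card_eq_zero_iff.1 (by omega)
    exact Res_trivial M fun i => isEmptyElim i
  | succ N ih =>
    intro ι κ _ _ _ _ hcard β r s C hC M hM
    by_cases hne : IsEmpty ι ∧ IsEmpty κ
    · exact Res_trivial M fun i => (hne.1.false i).elim
    -- a label that occurs
    obtain ⟨b, hb⟩ : ∃ b, (∃ i, r i = b) ∨ (∃ j, s j = b) := by
      rw [not_and_or, not_isEmpty_iff, not_isEmpty_iff] at hne
      rcases hne with ⟨⟨i⟩⟩ | ⟨⟨j⟩⟩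
      · exact ⟨r i, Or.inl ⟨i, rfl⟩⟩
      · exact ⟨s j, Or.inr ⟨j, rfl⟩⟩
    let e : {i // r i = b} ⊕ {i // ¬ r i = b} ≃ ι := Equiv.sumCompl _
    let e' : {j // s j = b} ⊕ {j // ¬ s j = b} ≃ κ := Equiv.sumCompl _
    have hz : ∀ i j, r i ≠ s j → M i j = 0 := by
      intro i j hij
      ext g
      by_contra h
      exact hij (hM i j g h).1
    set M1 := M.submatrix e e' with hM1
    set X := M1.toBlocks₁₁ with hX
    set Z := M1.toBlocks₂₂ with hZ
    have hM1b : M1 = fromBlocks X 0 0 Z := by
      rw [← Matrix.fromBlocks_toBlocks M1]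
      congr 1
      · ext1 p q
        change M p.1 q.1 = 0
        exact hz _ _ (by rw [p.2]; exact fun h => q.2 h.symm)
      · ext1 p q
        change M p.1 q.1 = 0
        exact hz _ _ (by rw [q.2]; exact p.2)
    have hXs : Res 2 X := by
      apply Res_cyclic htf X (C b) (hC _)
      intro p q g hg
      have := (hM p.1 q.1 g hg).2
      rwa [p.2] at this
    have hZs : Res 2 Z := by
      apply ih {i // ¬ r i = b} {j // ¬ s j = b} ?_ β (fun p => r p.1) (fun p => s p.1) C hC Z
      · intro p q g hg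
        exact hM p.1 q.1 g hg
      · have h3 : Fintype.card {i // r i = b} + Fintype.card {i // ¬ r i = b}
            = Fintype.card ι := by
          rw [← Fintype.card_sum]; exact Fintype.card_congr e
        have h4 : Fintype.card {j // s j = b} + Fintype.card {j // ¬ s j = b}
            = Fintype.card κ := by
          rw [← Fintype.card_sum]; exact Fintype.card_congr e'
        have h5 : 0 < Fintype.card {i // r i = b} + Fintype.card {j // s j = b} := by
          rcases hb with ⟨i, hi⟩ | ⟨j, hj⟩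
          · exact Nat.add_pos_left (Fintype.card_pos_iff.2 ⟨⟨i, hi⟩⟩) _
          · exact Nat.add_pos_right _ (Fintype.card_pos_iff.2 ⟨⟨j, hj⟩⟩)
        omega
    have h5 : Res 2 M1 := by
      rw [hM1b]
      exact Res_blocks 2 X Z hXs hZs
    have h6 := Res_re 2 e.symm e'.symm M1 h5
    have h7 : M1.submatrix e.symm e'.symm = M := by
      ext1 i j
      change M (e (e.symm i)) (e' (e'.symm j)) = _
      rw [Equiv.apply_symm_apply, Equiv.apply_symm_apply]
    rwa [h7] at h6

include htf in
/-- **Matrices of small norm have cokernels with finite free resolutions.** -/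
theorem Res_small {ι κ : Type} [Fintype κ] [DecidableEq κ] [Fintype ι] [DecidableEq ι]
    (A : Matrix ι κ (MonoidAlgebra ℤ Γ)) (c : ℝ) (hc0 : 0 < c) (hc : c ^ 2 < 9 / 2)
    (hA : NormLE A c) : Res 2 A := by
  obtain ⟨ρ, u, C, hC, hst⟩ := structure_thm htf _ c hc0 hc hA
  set P := dgu (fun i => u (Sum.inl i)) with hP
  set Q := dgu (fun j => u (Sum.inr j)) with hQ
  set B : Matrix ι κ (MonoidAlgebra ℤ Γ) := P.val * A * Q⁻¹.val with hBdef
  have hB : ∀ i j, B i j = MonoidAlgebra.single (u (Sum.inl i)) 1 * A i j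
        * MonoidAlgebra.single (u (Sum.inr j))⁻¹ 1 := by
    intro i j
    change (Matrix.diagonal (fun i => MonoidAlgebra.single (u (Sum.inl i)) (1 : ℤ))
      * A * Matrix.diagonal (fun j => MonoidAlgebra.single (u (Sum.inr j))⁻¹ (1 : ℤ)) :
        Matrix ι κ (MonoidAlgebra ℤ Γ)) i j = _
    rw [Matrix.mul_diagonal, Matrix.diagonal_mul]
  have hBc : ∀ i j g, (B i j).coeff g ≠ 0 →
      ρ (Sum.inl i) = ρ (Sum.inr j) ∧ g ∈ C (ρ (Sum.inl i)) := by
    intro i j g hg
    rw [hB, MonoidAlgebra.coeff_mul_single_apply, MonoidAlgebra.coeff_single_mul_apply, one_mul,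
      mul_one, inv_inv] at hg
    have h1 := hst i j _ hg
    refine ⟨h1.1, ?_⟩
    have h2 := h1.2
    have h3 : u (Sum.inl i) * ((u (Sum.inl i))⁻¹ * (g * u (Sum.inr j))) * (u (Sum.inr j))⁻¹
        = g := by group
    rwa [h3] at h2
  have h1 : Res 2 B := Res_pattern htf _ ι κ le_rfl _ (fun i => ρ (Sum.inl i))
    (fun j => ρ (Sum.inr j)) C hC B hBc
  have h2 : Res 2 (P⁻¹.val * B) := Res_left 2 B P⁻¹.val P.val P.inv_mul P.mul_inv h1
  have h3 : Res 2 (P⁻¹.val * B * Q.val) := Res_right 2 _ Q.val Q⁻¹.val Q.mul_inv h2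
  have h4 : P⁻¹.val * B * Q.val = A := by
    have hPP : P⁻¹.val * P.val = 1 := P.inv_mul
    have hQQ : Q⁻¹.val * Q.val = 1 := Q.inv_mul
    calc P⁻¹.val * B * Q.val = (P⁻¹.val * P.val) * A * (Q⁻¹.val * Q.val) := by
          rw [hBdef]; simp only [Matrix.mul_assoc]
      _ = A := by rw [hPP, hQQ, Matrix.mul_one, Matrix.one_mul]
  rwa [h4] at h3

end group

end TH57.FF
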