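import Pool.Agent.TH57.FF.Defs

set_option autoImplicit false
set_option linter.unusedSectionVars false

/-! Modules with finite free resolutions. -/

namespace TH57.FF

open Matrix

section fr

variable (R : Type) [Ring R]

/-- `M` has a resolution of length `n` by finitely generated free modules -/
def FR : ℕ → ∀ (M : Type) [AddCommGroup M] [Module R M], Prop
  | 0, M, _, _ => Module.Finite R M ∧ Module.Free R M
  | n + 1, M, _, _ => ∃ (ι : Type) (_ : Fintype ι) (f : (ι → R) →ₗ[R] M),
      Function.Surjective f ∧ FR n (LinearMap.ker f)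

variable {R}

theorem FR_equiv (n : ℕ) {M M' : Type} [AddCommGroup M] [Module R M] [AddCommGroup M']
    [Module R M'] (e : M ≃ₗ[R] M') (h : FR R n M) : FR R n M' := by
  cases n with
  | zero =>
    obtain ⟨h1, h2⟩ := h
    exact ⟨Module.Finite.equiv e, Module.Free.of_equiv e⟩
  | succ n =>
    obtain ⟨ι, i1, f, hf, h1⟩ := h
    refine ⟨ι, i1, e.toLinearMap ∘ₗ f, e.surjective.comp hf, ?_⟩
    have : LinearMap.ker (e.toLinearMap ∘ₗ f) = LinearMap.ker f := LinearEquiv.ker_comp e f
    rw [this]
    exact h1

/-- the image of a matrix -/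
abbrev Im {ι κ : Type} [Fintype ι] (A : Matrix ι κ R) : Submodule R (κ → R) :=
  LinearMap.range A.vecMulLinear

theorem FR_step (n : ℕ) {ι κ l : Type} [Fintype ι] [Fintype l] (A : Matrix ι κ R)
    (Y : Matrix l ι R) (hY : ∀ x : ι → R, x ᵥ* A = 0 ↔ ∃ y : l → R, y ᵥ* Y = x)
    (h : FR R n (Im Y)) : FR R (n + 1) (Im A) := by
  refine ⟨ι, inferInstance, A.vecMulLinear.rangeRestrict, LinearMap.surjective_rangeRestrict _, ?_⟩
  have h1 : LinearMap.ker A.vecMulLinear.rangeRestrict = Im Y := by
    rw [LinearMap.ker_rangeRestrict]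
    ext x
    exact hY x
  rw [h1]
  exact h

theorem FR_of_Res : ∀ (n : ℕ) {ι κ : Type} [Fintype ι] (A : Matrix ι κ R), Res n A →
    FR R n (Im A)
  | 0, ι, κ, _, A, h => by
    have hinj : Function.Injective A.vecMulLinear := by
      rw [← LinearMap.ker_eq_bot, LinearMap.ker_eq_bot']
      exact fun x hx => h x hx
    let e : (ι → R) ≃ₗ[R] Im A := LinearEquiv.ofInjective _ hinj
    exact ⟨Module.Finite.equiv e, Module.Free.of_equiv e⟩
  | n + 1, ι, κ, _, A, h => by
    obtain ⟨l, i1, Y, h1, h2⟩ := h
    exact FR_step n A Y h1 (FR_of_Res n Y h2)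

/-- the resolution as a sequence -/
theorem seq_of_FR : ∀ (n : ℕ) (M : Type) [AddCommGroup M] [Module R M], FR R n M →
    ∃ (P : ℕ → Type) (_ : ∀ i, AddCommGroup (P i)) (_ : ∀ i, Module R (P i))
      (d : ∀ i, P (i + 1) →ₗ[R] P i) (ε : P 0 →ₗ[R] M),
      (∀ i, Module.Finite R (P i)) ∧ (∀ i, Module.Free R (P i)) ∧
      (∀ i, n < i → Subsingleton (P i)) ∧ Function.Surjective ε ∧
      (∀ x : P 0, ε x = 0 ↔ x ∈ LinearMap.range (d 0)) ∧
      (∀ i, LinearMap.range (d (i + 1)) = LinearMap.ker (d i))
  | 0, M, _, _, h => by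
    obtain ⟨h1, h2⟩ := h
    let P : ℕ → Type := fun i => match i with
      | 0 => M
      | _ + 1 => PUnit
    let iA : ∀ i, AddCommGroup (P i) := fun i => match i with
      | 0 => (inferInstance : AddCommGroup M)
      | _ + 1 => (inferInstance : AddCommGroup PUnit)
    let iM : ∀ i, Module R (P i) := fun i => match i with
      | 0 => (inferInstance : Module R M)
      | _ + 1 => (inferInstance : Module R PUnit)
    refine ⟨P, iA, iM, fun i => 0, LinearMap.id, ?_, ?_, ?_, Function.surjective_id, ?_, ?_⟩
    · intro i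
      match i with
      | 0 => exact h1
      | i + 1 => exact (inferInstance : Module.Finite R PUnit)
    · intro i
      match i with
      | 0 => exact h2
      | i + 1 => exact (inferInstance : Module.Free R PUnit)
    · intro i hi
      match i with
      | 0 => exact absurd hi (lt_irrefl _)
      | i + 1 => exact (inferInstance : Subsingleton PUnit)
    · intro x
      rw [LinearMap.range_zero, Submodule.mem_bot]
      rfl
    · intro i
      rw [LinearMap.range_zero, LinearMap.ker_zero]
      haveI : Subsingleton (P (i + 1)) := (inferInstance : Subsingleton PUnit)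
      ext x
      simp [Subsingleton.elim x 0]
  | n + 1, M, _, _, h => by
    obtain ⟨ι, i1, f, hf, h1⟩ := h
    obtain ⟨P', iA', iM', d', ε', g1, g2, g3, g4, g5, g6⟩ := seq_of_FR n _ h1
    let P : ℕ → Type := fun i => match i with
      | 0 => (ι → R)
      | i + 1 => P' i
    let iA : ∀ i, AddCommGroup (P i) := fun i => match i with
      | 0 => (inferInstance : AddCommGroup (ι → R))
      | i + 1 => iA' i
    let iM : ∀ i, Module R (P i) := fun i => match i with
      | 0 => (inferInstance : Module R (ι → R))
      | i + 1 => iM' i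
    let d : ∀ i, P (i + 1) →ₗ[R] P i := fun i => match i with
      | 0 => (LinearMap.ker f).subtype ∘ₗ ε'
      | i + 1 => d' i
    refine ⟨P, iA, iM, d, f, ?_, ?_, ?_, hf, ?_, ?_⟩
    · intro i
      match i with
      | 0 => exact (inferInstance : Module.Finite R (ι → R))
      | i + 1 => exact g1 i
    · intro i
      match i with
      | 0 => exact (inferInstance : Module.Free R (ι → R))
      | i + 1 => exact g2 i
    · intro i hi
      match i with
      | 0 => exact absurd hi (by omega)
      | i + 1 => exact g3 i (by omega)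
    · intro x
      change f x = 0 ↔ x ∈ LinearMap.range ((LinearMap.ker f).subtype ∘ₗ ε')
      rw [LinearMap.range_comp, LinearMap.range_eq_top.2 g4, Submodule.map_top,
        Submodule.range_subtype]
      rfl
    · intro i
      match i with
      | 0 =>
        change LinearMap.range (d' 0) = LinearMap.ker ((LinearMap.ker f).subtype ∘ₗ ε')
        rw [LinearMap.ker_comp, Submodule.ker_subtype]
        ext x
        rw [← g5]
        rfl
      | i + 1 => exact g6 i

end fr

end TH57.FF
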