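import Pool.Agent.TH57.FF.BdDefs
import Pool.Agent.TH57.FF.Grp
import Pool.Agent.TH57.FF.Seq
import Pool.Agent.TH57.Thr.KRed

set_option autoImplicit false
set_option linter.unusedSectionVars false
set_option linter.style.haveILetI false

/-! Boundary matrices of partial free resolutions of the trivial module. -/

namespace TH57.FF

open Matrix TH57.Thr

theorem FFle_of {G : Type} [Group G] {m k : ℕ} (A : Matrix (Fin m) (Fin k) (MonoidAlgebra ℤ G))
    (h : Bd G 0 A) (N : ℕ) (hA : FR (MonoidAlgebra ℤ G) N (Im A)) : FFle G (N + 1) := by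
  obtain ⟨ε, h1, h2, h3⟩ := h
  obtain ⟨P', iA', iM', d', ε', g1, g2, g3, g4, g5, g6⟩ := seq_of_FR N _ hA
  let R := MonoidAlgebra ℤ G
  let P : ℕ → Type := fun i => match i with
    | 0 => (Fin k → MonoidAlgebra ℤ G)
    | i + 1 => P' i
  let iA : ∀ i, AddCommGroup (P i) := fun i => match i with
    | 0 => (inferInstance : AddCommGroup (Fin k → MonoidAlgebra ℤ G))
    | i + 1 => iA' i
  let iM : ∀ i, Module (MonoidAlgebra ℤ G) (P i) := fun i => match i with
    | 0 => (inferInstance : Module (MonoidAlgebra ℤ G) (Fin k → MonoidAlgebra ℤ G))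
    | i + 1 => iM' i
  let d : ∀ i, P (i + 1) →ₗ[MonoidAlgebra ℤ G] P i := fun i => match i with
    | 0 => (Im A).subtype ∘ₗ ε'
    | i + 1 => d' i
  refine ⟨P, iA, iM, d, ε, ?_, ?_, ?_, h1, h2, ?_, ?_⟩
  · intro i
    match i with
    | 0 => exact (inferInstance : Module.Finite (MonoidAlgebra ℤ G) (Fin k → MonoidAlgebra ℤ G))
    | i + 1 => exact g1 i
  · intro i
    match i with
    | 0 => exact (inferInstance : Module.Free (MonoidAlgebra ℤ G) (Fin k → MonoidAlgebra ℤ G))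
    | i + 1 => exact g2 i
  · intro i hi
    match i with
    | 0 => exact absurd hi (by omega)
    | i + 1 => exact g3 i (by omega)
  · intro x
    change ε x = 0 ↔ x ∈ LinearMap.range ((Im A).subtype ∘ₗ ε')
    rw [LinearMap.range_comp, LinearMap.range_eq_top.2 g4, Submodule.map_top,
      Submodule.range_subtype, h3]
    rfl
  · intro i
    match i with
    | 0 =>
      change LinearMap.range (d' 0) = LinearMap.ker ((Im A).subtype ∘ₗ ε')
      rw [LinearMap.ker_comp, Submodule.ker_subtype]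
      ext x
      rw [← g5]
      rfl
    | i + 1 => exact g6 i

theorem FFle_of_FR {G : Type} [Group G] : ∀ (n : ℕ) {m k : ℕ}
    (A : Matrix (Fin m) (Fin k) (MonoidAlgebra ℤ G)) (_ : Bd G n A) (N : ℕ)
    (_ : FR (MonoidAlgebra ℤ G) N (Im A)), FFle G (N + n + 1)
  | 0, m, k, A, h, N, hA => FFle_of A h N hA
  | n + 1, m, k, A, h, N, hA => by
    obtain ⟨l, B, h1, h2⟩ := h
    have h3 := FFle_of_FR n B h1 (N + 1) (FR_step N B A h2 hA)
    have h4 : N + 1 + n + 1 = N + (n + 1) + 1 := by ring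
    rwa [h4] at h3

theorem small_boundary {G : Type} [Group G] (htf : ∀ g : G, ∀ k : ℕ, 0 < k → g ^ k = 1 → g = 1)
    (n : ℕ) {m k : ℕ} (A : Matrix (Fin m) (Fin k) (MonoidAlgebra ℤ G)) (h : Bd G n A)
    (c : ℝ) (hc0 : 0 < c) (hc : c ^ 2 < 9 / 2) (hA : NormLE A c) : FFle G (n + 3) := by
  have h1 := FFle_of_FR n A h 2 (FR_of_Res 2 A (Res_small htf A c hc0 hc hA))
  have h2 : 2 + n + 1 = n + 3 := by ring
  rwa [h2] at h1

/-! ### The reduction -/

theorem core_red {G : Type} [Group G] {m k : ℕ} (A : Matrix (Fin m) (Fin k) (MonoidAlgebra ℤ G))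
    (c : ℝ) (hc : 9 / 2 < c ^ 2) :
    ∃ (m' k' : ℕ) (A' : Matrix (Fin m') (Fin k') (MonoidAlgebra ℤ G))
      (T : Matrix (Fin k') (Fin k) (MonoidAlgebra ℤ G))
      (S : Matrix (Fin k) (Fin k') (MonoidAlgebra ℤ G)), NormLE A' c ∧ S * T = 1 ∧
      ∀ v : Fin k' → MonoidAlgebra ℤ G, (∃ y : Fin m → MonoidAlgebra ℤ G, y ᵥ* A = v ᵥ* T) ↔
        ∃ y : Fin m' → MonoidAlgebra ℤ G, y ᵥ* A' = v := by
  obtain ⟨q, iq1, iq2, X, F, hF, hq, hX⟩ := good_all hc A
  obtain ⟨u, hu, _⟩ := El_unit F hF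
  have hF1 : F * (↑u⁻¹ : Matrix (Fin k ⊕ q) (Fin k ⊕ q) (MonoidAlgebra ℤ G)) = 1 := by
    rw [← hu, Units.mul_inv]
  have hF2 : (↑u⁻¹ : Matrix (Fin k ⊕ q) (Fin k ⊕ q) (MonoidAlgebra ℤ G)) * F = 1 := by
    rw [← hu, Units.inv_mul]
  set F' : Matrix (Fin k ⊕ q) (Fin k ⊕ q) (MonoidAlgebra ℤ G) := ↑u⁻¹ with hF'
  set M : Matrix (Fin m ⊕ q) (Fin k ⊕ q) (MonoidAlgebra ℤ G) := fromBlocks A X 0 1 with hM
  have hN : NormLE (M * F) c := by
    intro x
    refine (hX x).trans ?_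
    rw [normSq_sum x]
    have h2 := normSq_nonneg (x ∘ Sum.inl)
    nlinarith
  let e : Fin (m + Fintype.card q) ≃ Fin m ⊕ q :=
    finSumFinEquiv.symm.trans (Equiv.sumCongr (Equiv.refl _) (Fintype.equivFin q).symm)
  let e' : Fin (k + Fintype.card q) ≃ Fin k ⊕ q :=
    finSumFinEquiv.symm.trans (Equiv.sumCongr (Equiv.refl _) (Fintype.equivFin q).symm)
  let J : Matrix (Fin k ⊕ q) (Fin k) (MonoidAlgebra ℤ G) := fromRows 1 0
  let J' : Matrix (Fin k) (Fin k ⊕ q) (MonoidAlgebra ℤ G) := fromCols 1 0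
  have hJ : J' * J = 1 := by
    rw [Matrix.fromCols_mul_fromRows]
    simp
  have hvJ : ∀ w : Fin k ⊕ q → MonoidAlgebra ℤ G, w ᵥ* J = w ∘ Sum.inl := by
    intro w
    rw [Matrix.vecMul_fromRows, Matrix.vecMul_one, Matrix.vecMul_zero, add_zero]
  refine ⟨m + Fintype.card q, k + Fintype.card q, (M * F).submatrix e e',
    (F' * J).submatrix e' (Equiv.refl _), (J' * F).submatrix (Equiv.refl _) e',
    NormLE_re3 e e' _ c hN, ?_, ?_⟩
  · rw [Matrix.submatrix_mul_equiv]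
    have : J' * F * (F' * J) = 1 := by
      rw [Matrix.mul_assoc, ← Matrix.mul_assoc F, hF1, Matrix.one_mul, hJ]
    rw [this]
    rfl
  · intro v
    have h1 : v ᵥ* (F' * J).submatrix e' (Equiv.refl _) = ((v ∘ e'.symm) ᵥ* F') ∘ Sum.inl := by
      rw [vecMul_submatrix_equiv, ← Matrix.vecMul_vecMul, hvJ]
      rfl
    rw [h1]
    set w := (v ∘ e'.symm) ᵥ* F' with hw
    have hwF : w ᵥ* F = v ∘ e'.symm := by
      rw [hw, Matrix.vecMul_vecMul, hF2, Matrix.vecMul_one]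
    have h2 : ∀ y : Fin (m + Fintype.card q) → MonoidAlgebra ℤ G,
        y ᵥ* (M * F).submatrix e e' = v ↔ (y ∘ e.symm) ᵥ* M = w := by
      intro y
      rw [vecMul_submatrix_equiv]
      constructor
      · intro h3
        have h4 : (y ∘ e.symm) ᵥ* (M * F) = v ∘ e'.symm := by
          rw [← h3]
          funext j
          simp
        rw [hw, ← h4, Matrix.vecMul_vecMul, Matrix.mul_assoc, hF1, Matrix.mul_one]
      · intro h3
        rw [← Matrix.vecMul_vecMul, h3, hwF]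
        funext j
        simp
    constructor
    · rintro ⟨y, hy⟩
      let z : Fin m ⊕ q → MonoidAlgebra ℤ G := Sum.elim y (w ∘ Sum.inr - y ᵥ* X)
      refine ⟨z ∘ e, (h2 _).2 ?_⟩
      have h3 : (z ∘ e) ∘ e.symm = z := by
        funext j
        simp
      rw [h3, hM, Matrix.vecMul_fromBlocks]
      funext j
      rcases j with j | j
      · simp only [Sum.elim_inl, z, Sum.elim_comp_inl, Sum.elim_comp_inr, Matrix.vecMul_zero,
          add_zero]
        exact congrFun hy j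
      · simp only [Sum.elim_inr, z, Sum.elim_comp_inl, Sum.elim_comp_inr, Matrix.vecMul_one,
          Pi.add_apply, Pi.sub_apply, Function.comp_apply]
        abel
    · rintro ⟨y, hy⟩
      rw [h2, hM, Matrix.vecMul_fromBlocks] at hy
      refine ⟨(y ∘ e.symm) ∘ Sum.inl, ?_⟩
      rw [← hy]
      funext j
      simp

theorem Bd_range {G : Type} [Group G] (n : ℕ) {k k' l : ℕ}
    (B : Matrix (Fin k) (Fin l) (MonoidAlgebra ℤ G))
    (B' : Matrix (Fin k') (Fin l) (MonoidAlgebra ℤ G))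
    (h : ∀ x : Fin l → MonoidAlgebra ℤ G, (∃ y : Fin k → MonoidAlgebra ℤ G, y ᵥ* B = x) ↔
      ∃ y : Fin k' → MonoidAlgebra ℤ G, y ᵥ* B' = x) (hB : Bd G n B) : Bd G n B' := by
  cases n with
  | zero =>
    obtain ⟨ε, h1, h2, h3⟩ := hB
    exact ⟨ε, h1, h2, fun x => (h3 x).trans (h x)⟩
  | succ n =>
    obtain ⟨m, C, h1, h2⟩ := hB
    exact ⟨m, C, h1, fun x => (h2 x).trans (h x)⟩

theorem Bd_red {G : Type} [Group G] (n : ℕ) {m k : ℕ}
    (A : Matrix (Fin m) (Fin k) (MonoidAlgebra ℤ G)) (h : Bd G n A) (c : ℝ) (hc : 9 / 2 < c ^ 2) :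
    ∃ (m' k' : ℕ) (A' : Matrix (Fin m') (Fin k') (MonoidAlgebra ℤ G)), Bd G n A' ∧ NormLE A' c := by
  obtain ⟨m', k', A', T, S, hN, hST, hT⟩ := core_red A c hc
  refine ⟨m', k', A', ?_, hN⟩
  cases n with
  | zero =>
    obtain ⟨ε, h1, h2, h3⟩ := h
    refine ⟨ε.comp T.vecMulLinear.toAddMonoidHom, ?_, ?_, ?_⟩
    · intro g x
      change ε ((MonoidAlgebra.of ℤ G g • x) ᵥ* T) = ε (x ᵥ* T)
      rw [Matrix.smul_vecMul, h1]
    · intro z
      obtain ⟨x, hx⟩ := h2 z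
      refine ⟨x ᵥ* S, ?_⟩
      change ε ((x ᵥ* S) ᵥ* T) = z
      rw [Matrix.vecMul_vecMul, hST, Matrix.vecMul_one, hx]
    · intro x
      change ε (x ᵥ* T) = 0 ↔ _
      rw [h3, hT]
  | succ n =>
    obtain ⟨l, B, h1, h2⟩ := h
    refine ⟨l, T * B, ?_, fun x => ?_⟩
    · apply Bd_range n B _ _ h1
      intro x
      constructor
      · rintro ⟨y, rfl⟩
        refine ⟨y ᵥ* S, ?_⟩
        rw [← Matrix.vecMul_vecMul, Matrix.vecMul_vecMul y, hST, Matrix.vecMul_one]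
      · rintro ⟨y, rfl⟩
        exact ⟨y ᵥ* T, Matrix.vecMul_vecMul _ _ _⟩
    · rw [← Matrix.vecMul_vecMul, h2, hT]

end TH57.FF
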