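import Mathlib

set_option autoImplicit false

/-! Boundary matrices of partial free resolutions of the trivial module, and groups of type FF. -/

namespace TH57.FF

open Matrix

/-- `Bd G n A`: the matrix `A` is the boundary map `F_{n+1} → F_n` of an exact sequence
`F_{n+1} → F_n → ... → F_0 → ℤ → 0` of `ℤG`-modules in which all `F_i` are free with finite bases
(elements of `F_i` are row vectors, matrices act on the right) and `ℤ` is the trivial module -/
def Bd (G : Type) [Group G] : ℕ → ∀ {m k : ℕ}, Matrix (Fin m) (Fin k) (MonoidAlgebra ℤ G) → Prop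
  | 0, m, k, A => ∃ ε : (Fin k → MonoidAlgebra ℤ G) →+ ℤ,
      (∀ (g : G) (x : Fin k → MonoidAlgebra ℤ G), ε (MonoidAlgebra.of ℤ G g • x) = ε x) ∧
      Function.Surjective ε ∧
      (∀ x : Fin k → MonoidAlgebra ℤ G, ε x = 0 ↔ ∃ y : Fin m → MonoidAlgebra ℤ G, y ᵥ* A = x)
  | n + 1, m, k, A => ∃ (l : ℕ) (B : Matrix (Fin k) (Fin l) (MonoidAlgebra ℤ G)), Bd G n B ∧
      (∀ x : Fin k → MonoidAlgebra ℤ G, x ᵥ* B = 0 ↔
        ∃ y : Fin m → MonoidAlgebra ℤ G, y ᵥ* A = x)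

/-- `FFle G n`: the trivial module `ℤ` has a resolution of length at most `n` by finitely generated
free `ℤG`-modules -/
def FFle (G : Type) [Group G] (n : ℕ) : Prop :=
  ∃ (P : ℕ → Type) (_ : ∀ i, AddCommGroup (P i)) (_ : ∀ i, Module (MonoidAlgebra ℤ G) (P i))
    (d : ∀ i, P (i + 1) →ₗ[MonoidAlgebra ℤ G] P i) (ε : P 0 →+ ℤ),
    (∀ i, Module.Finite (MonoidAlgebra ℤ G) (P i)) ∧
    (∀ i, Module.Free (MonoidAlgebra ℤ G) (P i)) ∧
    (∀ i, n < i → Subsingleton (P i)) ∧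
    (∀ (g : G) (x : P 0), ε (MonoidAlgebra.of ℤ G g • x) = ε x) ∧
    Function.Surjective ε ∧
    (∀ x : P 0, ε x = 0 ↔ x ∈ LinearMap.range (d 0)) ∧
    (∀ i, LinearMap.range (d (i + 1)) = LinearMap.ker (d i))

end TH57.FF
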