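import Mathlib

set_option autoImplicit false
set_option linter.unusedSectionVars false

/-! Finite free resolutions of cokernels of matrices, by matrices. -/

namespace TH57.FF

open Matrix

section res

variable {R : Type} [Ring R]

/-- the cokernel of `A` (row vectors) has a free resolution of length `N + 1` starting with `A` -/
def Res : ℕ → ∀ {ι κ : Type} [Fintype ι], Matrix ι κ R → Prop
  | 0, ι, _, _, A => ∀ x : ι → R, x ᵥ* A = 0 → x = 0
  | N + 1, ι, _, _, A => ∃ (l : Type) (_ : Fintype l) (Y : Matrix l ι R),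
      (∀ x : ι → R, x ᵥ* A = 0 ↔ ∃ y : l → R, y ᵥ* Y = x) ∧ Res N Y

theorem Res_zero {ι κ : Type} [Fintype ι] (A : Matrix ι κ R) :
    Res 0 A ↔ ∀ x : ι → R, x ᵥ* A = 0 → x = 0 := Iff.rfl

theorem Res_succ (N : ℕ) {ι κ : Type} [Fintype ι] (A : Matrix ι κ R) :
    Res (N + 1) A ↔ ∃ (l : Type) (_ : Fintype l) (Y : Matrix l ι R),
      (∀ x : ι → R, x ᵥ* A = 0 ↔ ∃ y : l → R, y ᵥ* Y = x) ∧ Res N Y := Iff.rfl

theorem Res_mono : ∀ (N : ℕ) {ι κ : Type} [Fintype ι] (A : Matrix ι κ R), Res N A → Res (N + 1) A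
  | 0, ι, κ, _, A, h => by
    refine ⟨PEmpty, inferInstance, fun i => i.elim, ?_, ?_⟩
    · intro x
      constructor
      · intro hx
        refine ⟨fun i => i.elim, ?_⟩
        rw [h x hx]
        funext j
        simp [Matrix.vecMul, dotProduct]
      · rintro ⟨y, hy⟩
        have : x = 0 := by
          rw [← hy]
          funext j
          simp [Matrix.vecMul, dotProduct]
        rw [this, Matrix.zero_vecMul]
    · intro x _
      funext i
      exact i.elim
  | N + 1, ι, κ, _, A, h => by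
    obtain ⟨l, i1, Y, h1, h2⟩ := h
    exact ⟨l, i1, Y, h1, Res_mono N Y h2⟩

/-- the kernel only matters -/
theorem Res_ker (N : ℕ) {ι κ κ' : Type} [Fintype ι] (A : Matrix ι κ R) (B : Matrix ι κ' R)
    (hAB : ∀ x : ι → R, x ᵥ* A = 0 ↔ x ᵥ* B = 0) (h : Res N A) : Res N B := by
  cases N with
  | zero => exact fun x hx => h x ((hAB x).2 hx)
  | succ N =>
    obtain ⟨l, i1, Y, h1, h2⟩ := h
    exact ⟨l, i1, Y, fun x => (hAB x).symm.trans (h1 x), h2⟩

/-- multiplication by an invertible matrix on the left -/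
theorem Res_left (N : ℕ) {ι ι' κ : Type} [Fintype ι] [Fintype ι'] [DecidableEq ι] [DecidableEq ι']
    (A : Matrix ι κ R) (P : Matrix ι' ι R) (Q : Matrix ι ι' R) (hPQ : P * Q = 1) (hQP : Q * P = 1)
    (h : Res N A) : Res N (P * A) := by
  cases N with
  | zero =>
    intro x hx
    have h1 : x ᵥ* P = 0 := h _ (by rw [Matrix.vecMul_vecMul, hx])
    have h2 : (x ᵥ* P) ᵥ* Q = x := by rw [Matrix.vecMul_vecMul, hPQ, Matrix.vecMul_one]
    rw [← h2, h1, Matrix.zero_vecMul]
  | succ N =>
    obtain ⟨l, i1, Y, h1, h2⟩ := h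
    refine ⟨l, i1, Y * Q, fun x => ?_, ?_⟩
    · constructor
      · intro hx
        obtain ⟨y, hy⟩ := (h1 (x ᵥ* P)).1 (by rw [Matrix.vecMul_vecMul, hx])
        refine ⟨y, ?_⟩
        rw [← Matrix.vecMul_vecMul, hy, Matrix.vecMul_vecMul, hPQ, Matrix.vecMul_one]
      · rintro ⟨y, rfl⟩
        have h3 : (y ᵥ* Y) ᵥ* A = 0 := (h1 _).2 ⟨y, rfl⟩
        calc (y ᵥ* (Y * Q)) ᵥ* (P * A) = (y ᵥ* Y) ᵥ* ((Q * P) * A) := by
              simp only [Matrix.vecMul_vecMul, Matrix.mul_assoc]
          _ = 0 := by rw [hQP, Matrix.one_mul, h3]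
    · apply Res_ker N Y _ _ h2
      intro x
      constructor
      · intro hx
        rw [← Matrix.vecMul_vecMul, hx, Matrix.zero_vecMul]
      · intro hx
        have h3 : (x ᵥ* (Y * Q)) ᵥ* P = x ᵥ* Y := by
          rw [Matrix.vecMul_vecMul, Matrix.mul_assoc, hQP, Matrix.mul_one]
        rw [← h3, hx, Matrix.zero_vecMul]

/-- multiplication by an invertible matrix on the right -/
theorem Res_right (N : ℕ) {ι κ κ' : Type} [Fintype ι] [Fintype κ] [Fintype κ'] [DecidableEq κ]
    (A : Matrix ι κ R) (P : Matrix κ κ' R) (Q : Matrix κ' κ R) (hPQ : P * Q = 1)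
    (h : Res N A) : Res N (A * P) := by
  apply Res_ker N A _ _ h
  intro x
  constructor
  · intro hx
    rw [← Matrix.vecMul_vecMul, hx, Matrix.zero_vecMul]
  · intro hx
    have h3 : (x ᵥ* (A * P)) ᵥ* Q = x ᵥ* A := by
      rw [Matrix.vecMul_vecMul, Matrix.mul_assoc, hPQ, Matrix.mul_one]
    rw [← h3, hx, Matrix.zero_vecMul]

theorem vecMul_fromBlocks_diag {ι κ ι' κ' : Type} [Fintype ι] [Fintype ι'] (A : Matrix ι κ R)
    (B : Matrix ι' κ' R) (x : ι ⊕ ι' → R) :
    x ᵥ* fromBlocks A 0 0 B = Sum.elim ((x ∘ Sum.inl) ᵥ* A) ((x ∘ Sum.inr) ᵥ* B) := by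
  rw [Matrix.vecMul_fromBlocks]
  simp

theorem Res_blocks : ∀ (N : ℕ) {ι κ ι' κ' : Type} [Fintype ι] [Fintype ι'] (A : Matrix ι κ R)
    (B : Matrix ι' κ' R), Res N A → Res N B → Res N (fromBlocks A 0 0 B)
  | 0, ι, κ, ι', κ', _, _, A, B, hA, hB => by
    intro x hx
    rw [vecMul_fromBlocks_diag] at hx
    have h1 : x ∘ Sum.inl = 0 := hA _ (by funext j; exact congrFun hx (Sum.inl j))
    have h2 : x ∘ Sum.inr = 0 := hB _ (by funext j; exact congrFun hx (Sum.inr j))
    funext j
    rcases j with j | j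
    · exact congrFun h1 j
    · exact congrFun h2 j
  | N + 1, ι, κ, ι', κ', _, _, A, B, hA, hB => by
    obtain ⟨l, i1, Y, h1, h2⟩ := hA
    obtain ⟨l', i1', Y', h1', h2'⟩ := hB
    refine ⟨l ⊕ l', inferInstance, fromBlocks Y 0 0 Y', fun x => ?_, Res_blocks N Y Y' h2 h2'⟩
    rw [vecMul_fromBlocks_diag]
    constructor
    · intro hx
      obtain ⟨y, hy⟩ := (h1 (x ∘ Sum.inl)).1 (by funext j; exact congrFun hx (Sum.inl j))
      obtain ⟨y', hy'⟩ := (h1' (x ∘ Sum.inr)).1 (by funext j; exact congrFun hx (Sum.inr j))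
      refine ⟨Sum.elim y y', ?_⟩
      rw [vecMul_fromBlocks_diag]
      funext j
      rcases j with j | j
      · exact congrFun hy j
      · exact congrFun hy' j
    · rintro ⟨y, rfl⟩
      rw [vecMul_fromBlocks_diag]
      have e1 := (h1 ((y ∘ Sum.inl) ᵥ* Y)).2 ⟨_, rfl⟩
      have e2 := (h1' ((y ∘ Sum.inr) ᵥ* Y')).2 ⟨_, rfl⟩
      funext j
      rcases j with j | j
      · exact congrFun e1 j
      · exact congrFun e2 j

theorem vecMul_submatrix_equiv {ι κ ι' κ' : Type} [Fintype ι] [Fintype ι'] (e : ι' ≃ ι)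
    (e' : κ' ≃ κ) (A : Matrix ι κ R) (x : ι' → R) :
    x ᵥ* (A.submatrix e e') = ((x ∘ e.symm) ᵥ* A) ∘ e' := by
  funext j
  simp only [Matrix.vecMul, dotProduct, Function.comp_apply, Matrix.submatrix_apply]
  exact Fintype.sum_equiv e _ _ fun i => by simp

theorem Res_re (N : ℕ) {ι κ ι' κ' : Type} [Fintype ι] [Fintype ι'] (e : ι' ≃ ι)
    (e' : κ' ≃ κ) (A : Matrix ι κ R) (h : Res N A) : Res N (A.submatrix e e') := by
  have key : ∀ x : ι' → R, x ᵥ* (A.submatrix e e') = 0 ↔ (x ∘ e.symm) ᵥ* A = 0 := by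
    intro x
    rw [vecMul_submatrix_equiv]
    constructor
    · intro h1
      funext j
      have := congrFun h1 (e'.symm j)
      simpa using this
    · intro h1
      rw [h1]
      rfl
  cases N with
  | zero =>
    intro x hx
    have h1 := h _ ((key x).1 hx)
    funext j
    have := congrFun h1 (e j)
    simpa using this
  | succ N =>
    obtain ⟨l, i1, Y, h1, h2⟩ := h
    refine ⟨l, i1, Y.submatrix (Equiv.refl l) e, fun x => ?_, ?_⟩
    · rw [key, h1]
      constructor
      · rintro ⟨y, hy⟩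
        refine ⟨y, ?_⟩
        rw [vecMul_submatrix_equiv]
        change (y ᵥ* Y) ∘ e = x
        rw [hy]
        funext j
        simp
      · rintro ⟨y, hy⟩
        refine ⟨y, ?_⟩
        rw [vecMul_submatrix_equiv] at hy
        change (y ᵥ* Y) ∘ e = x at hy
        rw [← hy]
        funext j
        simp
    · apply Res_ker N Y _ _ h2
      intro x
      rw [vecMul_submatrix_equiv]
      change x ᵥ* Y = 0 ↔ (x ᵥ* Y) ∘ e = 0
      constructor
      · intro h3
        rw [h3]
        rfl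
      · intro h3
        funext j
        have := congrFun h3 (e.symm j)
        simpa using this

end res

section basechange

variable {R S : Type} [Ring R] [Ring S]

/-- `S` is free as a right `R`-module with basis `u` -/
structure RB (φ : R →+* S) (σ : Type) (u : σ → S) : Prop where
  span : ∀ v : S, ∃ w : σ →₀ R, (w.sum fun s r => u s * φ r) = v
  indep : ∀ w : σ →₀ R, (w.sum fun s r => u s * φ r) = 0 → w = 0

theorem Res_map (φ : R →+* S) (σ : Type) (u : σ → S) (hu : RB φ σ u) : ∀ (N : ℕ) {ι κ : Type}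
    [Fintype ι] (A : Matrix ι κ R), Res N A → Res N (A.map φ) := by
  classical
  -- the coordinates of `v ᵥ* φ A`
  have key : ∀ {ι κ : Type} [Fintype ι] (A : Matrix ι κ R) (w : ι → σ →₀ R),
      ((fun i => (w i).sum fun s r => u s * φ r) ᵥ* A.map φ = 0) →
      ∀ s, (fun i => w i s) ᵥ* A = 0 := by
    intro ι κ _ A w h s
    funext j
    set T : Finset σ := Finset.univ.biUnion fun i => (w i).support with hT
    let W : σ →₀ R := Finsupp.onFinset T (fun s => ((fun i => w i s) ᵥ* A) j) (by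
      intro s hs
      by_contra hn
      apply hs
      have : ∀ i, w i s = 0 := by
        intro i
        by_contra hi
        exact hn (Finset.mem_biUnion.2 ⟨i, Finset.mem_univ i, Finsupp.mem_support_iff.2 hi⟩)
      simp [Matrix.vecMul, dotProduct, this])
    have hW : (W.sum fun s r => u s * φ r) = 0 := by
      rw [Finsupp.onFinset_sum _ (fun a => by rw [map_zero, mul_zero])]
      have h1 : ((fun i => (w i).sum fun s r => u s * φ r) ᵥ* A.map φ) j = (0 : S) :=
        congrFun h j
      refine Eq.trans ?_ h1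
      simp only [Matrix.vecMul, dotProduct, Matrix.map_apply]
      have h2 : ∀ i, ((w i).sum fun s r => u s * φ r) = ∑ s ∈ T, u s * φ (w i s) := by
        intro i
        apply Finsupp.sum_of_support_subset _ _ _ (fun s _ => by rw [map_zero, mul_zero])
        intro s hs
        exact Finset.mem_biUnion.2 ⟨i, Finset.mem_univ i, hs⟩
      simp only [h2, Finset.sum_mul, map_sum, Finset.mul_sum, map_mul]
      rw [Finset.sum_comm]
      simp only [mul_assoc]
    have := hu.indep W hW
    have h3 := DFunLike.congr_fun this s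
    exact h3
  have key2 : ∀ {ι κ : Type} [Fintype ι] (A : Matrix ι κ R) (v : ι → S), v ᵥ* A.map φ = 0 →
      ∃ (T : Finset σ) (w : σ → ι → R), (∀ s, w s ᵥ* A = 0) ∧
        v = fun i => ∑ s ∈ T, u s * φ (w s i) := by
    intro ι κ _ A v hv
    choose w hw using fun i => hu.span (v i)
    have hv' : v = fun i => (w i).sum fun s r => u s * φ r := by
      funext i
      exact (hw i).symm
    refine ⟨Finset.univ.biUnion fun i => (w i).support, fun s i => w i s, ?_, ?_⟩
    · rw [hv'] at hv
      exact key A w hv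
    · rw [hv']
      funext i
      apply Finsupp.sum_of_support_subset _ _ _ (fun s _ => by rw [map_zero, mul_zero])
      intro s hs
      exact Finset.mem_biUnion.2 ⟨i, Finset.mem_univ i, hs⟩
  intro N
  induction N with
  | zero =>
    intro ι κ _ A hA v hv
    obtain ⟨T, w, hw, rfl⟩ := key2 A v hv
    funext i
    apply Finset.sum_eq_zero
    intro s _
    rw [hA _ (hw s)]
    simp
  | succ N ih =>
    intro ι κ _ A hA
    obtain ⟨l, i1, Y, h1, h2⟩ := hA
    refine ⟨l, i1, Y.map φ, fun v => ?_, ih Y h2⟩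
    constructor
    · intro hv
      obtain ⟨T, w, hw, rfl⟩ := key2 A v hv
      choose y hy using fun s => (h1 (w s)).1 (hw s)
      refine ⟨fun a => ∑ s ∈ T, u s * φ (y s a), ?_⟩
      funext i
      simp only [Matrix.vecMul, dotProduct, Matrix.map_apply, Finset.sum_mul]
      rw [Finset.sum_comm]
      refine Finset.sum_congr rfl fun s _ => ?_
      rw [← congrFun (hy s) i]
      simp only [Matrix.vecMul, dotProduct, map_sum, map_mul, Finset.mul_sum, mul_assoc]
    · rintro ⟨y, rfl⟩
      have h3 : Y * A = 0 := by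
        ext1 a j
        have : (Pi.single a (1 : R) ᵥ* Y) ᵥ* A = 0 := (h1 _).2 ⟨_, rfl⟩
        rw [Matrix.vecMul_vecMul, Matrix.single_one_vecMul] at this
        exact congrFun this j
      rw [Matrix.vecMul_vecMul, ← Matrix.map_mul, h3]
      simp

end basechange

end TH57.FF
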