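import Pool.Agent.TH57.FF.Defs
import Pool.Agent.TH57.Thr.KLa

set_option autoImplicit false
set_option linter.style.haveILetI false
set_option linter.unusedSectionVars false

/-! Every matrix over `ℤ[t, t⁻¹]` has a free resolution of its cokernel of length three. -/

namespace TH57.FF

open Matrix Multiplicative TH57.Thr

/-- exponents between `a` and `b` -/
def Sp (a b : ℤ) (x : La) : Prop := ∀ z : ℤ, x.coeff (ofAdd z) ≠ 0 → a ≤ z ∧ z ≤ b

theorem Sp_zero (a b : ℤ) : Sp a b 0 := fun z h => absurd rfl h

theorem Sp_add (a b : ℤ) (x y : La) (hx : Sp a b x) (hy : Sp a b y) : Sp a b (x + y) := by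
  intro z h
  by_contra hn
  have h1 : x.coeff (ofAdd z) = 0 := by
    by_contra h2; exact hn (hx z h2)
  have h2 : y.coeff (ofAdd z) = 0 := by
    by_contra h2; exact hn (hy z h2)
  apply h
  rw [MonoidAlgebra.coeff_add, Finsupp.add_apply, h1, h2, add_zero]

theorem Sp_neg (a b : ℤ) (x : La) (hx : Sp a b x) : Sp a b (-x) := by
  intro z h
  apply hx z
  intro h1
  apply h
  rw [MonoidAlgebra.coeff_neg, Finsupp.neg_apply, h1, neg_zero]

theorem Sp_sum (a b : ℤ) {ι : Type} (s : Finset ι) (f : ι → La) (h : ∀ i ∈ s, Sp a b (f i)) :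
    Sp a b (∑ i ∈ s, f i) := by
  classical
  induction s using Finset.induction_on with
  | empty => rw [Finset.sum_empty]; exact Sp_zero a b
  | insert i s hi ih =>
    rw [Finset.sum_insert hi]
    exact Sp_add _ _ _ _ (h i (Finset.mem_insert_self _ _))
      (ih fun j hj => h j (Finset.mem_insert_of_mem hj))

theorem Sp_smul (a b : ℤ) (z : ℤ) (x : La) (hx : Sp a b x) : Sp a b (z • x) := by
  intro k h
  apply hx k
  intro h1
  apply h
  rw [MonoidAlgebra.coeff_smul, Finsupp.smul_apply, h1, smul_zero]

theorem Sp_mul (a b c d : ℤ) (x y : La) (hx : Sp a b x) (hy : Sp c d y) :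
    Sp (a + c) (b + d) (x * y) := by
  classical
  intro z h
  have h1 := MonoidAlgebra.support_coeff_mul_subset x y (Finsupp.mem_support_iff.2 h)
  obtain ⟨p, hp, q, hq, hpq⟩ := Finset.mem_mul.1 h1
  obtain ⟨p, rfl⟩ := ofAdd.surjective p
  obtain ⟨q, rfl⟩ := ofAdd.surjective q
  have h2 := hx p (Finsupp.mem_support_iff.1 hp)
  have h3 := hy q (Finsupp.mem_support_iff.1 hq)
  have h4 : p + q = z := hpq
  omega

theorem Sp_tp (a b c : ℤ) (x : La) (hx : Sp a b x) : Sp (a + c) (b + c) (tp c * x) := by
  intro z h
  rw [coeff_tp_mul] at h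
  have := hx _ h
  omega

theorem Sp_int (z : ℤ) : Sp 0 0 ((z : ℤ) : La) := by
  intro k h
  rw [int_single] at h
  change (MonoidAlgebra.single (ofAdd 0) z).coeff (ofAdd k) ≠ 0 at h
  rw [coeff_single_ofAdd] at h
  split_ifs at h with h1
  · omega
  · exact absurd rfl h

theorem Sp_mono (a b c d : ℤ) (x : La) (hx : Sp a b x) (hc : c ≤ a) (hd : b ≤ d) : Sp c d x := by
  intro z h
  have := hx z h
  omega

theorem Sp_exists (x : La) : ∃ K : ℕ, Sp (-K) K x := by
  classical
  refine ⟨x.coeff.support.sup fun g => (toAdd g).natAbs, fun z h => ?_⟩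
  have h1 : (toAdd (ofAdd z)).natAbs ≤ x.coeff.support.sup fun g => (toAdd g).natAbs :=
    Finset.le_sup (f := fun g : Multiplicative ℤ => (toAdd g).natAbs) (Finsupp.mem_support_iff.2 h)
  rw [toAdd_ofAdd] at h1
  omega

theorem Sp_const (x : La) (h : Sp 0 0 x) : x = ((x.coeff (ofAdd 0) : ℤ) : La) := by
  ext k
  obtain ⟨k, rfl⟩ := ofAdd.surjective k
  rw [int_single]
  change _ = (MonoidAlgebra.single (ofAdd 0) (x.coeff (ofAdd 0))).coeff (ofAdd k)
  rw [coeff_single_ofAdd]
  split_ifs with h1
  · rw [h1]
  · by_contra h2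
    have := h k h2
    omega

theorem coeff_int_mul (z : ℤ) (x : La) (k : ℤ) :
    (((z : ℤ) : La) * x).coeff (ofAdd k) = z * x.coeff (ofAdd k) := by
  rw [int_single, MonoidAlgebra.coeff_single_mul_apply, inv_one, one_mul]

section main

variable {ι κ : Type} [Fintype ι] [DecidableEq ι] (θ : Matrix ι κ La)

/-- vectors in the kernel with exponents in `[0, p]` -/
def KK (p : ℕ) : Submodule ℤ (ι → La) where
  carrier := {v | v ᵥ* θ = 0 ∧ ∀ i, Sp 0 p (v i)}
  zero_mem' := ⟨Matrix.zero_vecMul _, fun i => Sp_zero _ _⟩
  add_mem' := by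
    rintro v w ⟨h1, h2⟩ ⟨h3, h4⟩
    exact ⟨by rw [Matrix.add_vecMul, h1, h3, add_zero], fun i => Sp_add _ _ _ _ (h2 i) (h4 i)⟩
  smul_mem' := by
    rintro c v ⟨h1, h2⟩
    exact ⟨by rw [Matrix.smul_vecMul, h1, smul_zero], fun i => Sp_smul _ _ _ _ (h2 i)⟩

theorem mem_KK (p : ℕ) (v : ι → La) : v ∈ KK θ p ↔ v ᵥ* θ = 0 ∧ ∀ i, Sp 0 p (v i) := Iff.rfl

theorem KK_le (p : ℕ) : KK θ p ≤ Submodule.span ℤ (Set.range fun q : Fin (p + 1) × ι =>
    tp ((q.1 : ℕ) : ℤ) • (Pi.single q.2 1 : ι → La)) := by
  rintro v ⟨-, hv⟩
  have h1 : ∀ i, v i = ∑ k : Fin (p + 1), ((v i).coeff (ofAdd ((k : ℕ) : ℤ))) •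
      tp ((k : ℕ) : ℤ) := by
    intro i
    apply eq_sum_tp
    intro z hz
    have := hv i z hz
    omega
  have h2 : v = ∑ i, ∑ k : Fin (p + 1), ((v i).coeff (ofAdd ((k : ℕ) : ℤ))) •
      (tp ((k : ℕ) : ℤ) • (Pi.single i 1 : ι → La)) := by
    funext j
    rw [Finset.sum_apply, Finset.sum_eq_single j]
    · rw [Finset.sum_apply]
      conv_lhs => rw [h1 j]
      refine Finset.sum_congr rfl fun k _ => ?_
      simp
    · intro i _ hi
      rw [Finset.sum_apply]
      apply Finset.sum_eq_zero
      intro k _
      simp [Pi.single_eq_of_ne (Ne.symm hi)]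
    · intro h; exact absurd (Finset.mem_univ _) h
  rw [h2]
  refine Submodule.sum_mem _ fun i _ => Submodule.sum_mem _ fun k _ => ?_
  exact Submodule.smul_mem _ _ (Submodule.subset_span ⟨(k, i), rfl⟩)

instance (p : ℕ) : Module.Finite ℤ (KK θ p) := by
  have h1 : (Submodule.span ℤ (Set.range fun q : Fin (p + 1) × ι =>
    tp ((q.1 : ℕ) : ℤ) • (Pi.single q.2 1 : ι → La))).FG :=
    Submodule.fg_span (Set.finite_range _)
  have h2 : IsNoetherian ℤ (Submodule.span ℤ (Set.range fun q : Fin (p + 1) × ι =>
    tp ((q.1 : ℕ) : ℤ) • (Pi.single q.2 1 : ι → La))) := isNoetherian_of_fg_of_noetherian _ h1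
  exact Module.Finite.iff_fg.2 (isNoetherian_submodule.1 h2 _ (KK_le θ p))

theorem KK_mono (p : ℕ) : KK θ p ≤ KK θ (p + 1) := by
  rintro v ⟨h1, h2⟩
  exact ⟨h1, fun i => Sp_mono _ _ _ _ _ (h2 i) le_rfl (by push_cast; omega)⟩

theorem KK_tt (p : ℕ) (v : ι → La) (hv : v ∈ KK θ p) : tt • v ∈ KK θ (p + 1) := by
  obtain ⟨h1, h2⟩ := hv
  refine ⟨by rw [Matrix.smul_vecMul, h1, smul_zero], fun i => ?_⟩
  have := Sp_tp 0 p 1 (v i) (h2 i)
  rw [← tt_eq] at this
  exact Sp_mono _ _ _ _ _ this (by norm_num) (by push_cast; omega)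

/-- a kernel element of top degree `p + 1` whose top coefficients vanish lies in the smaller
space -/
theorem KK_top (p : ℕ) (v : ι → La) (hv : v ∈ KK θ (p + 1))
    (h : ∀ i, (v i).coeff (ofAdd ((p : ℤ) + 1)) = 0) : v ∈ KK θ p := by
  obtain ⟨h1, h2⟩ := hv
  refine ⟨h1, fun i z hz => ?_⟩
  have h3 := h2 i z hz
  have h4 : z ≠ (p : ℤ) + 1 := fun e => hz (by rw [e]; exact h i)
  push_cast at h3
  omega

/-- **Resolutions over `ℤ[t, t⁻¹]`.** -/
theorem Res_La : Res 2 θ := by
  classical
  -- noetherian: choose `p`
  have hnoe : IsNoetherianRing La := by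
    have h1 : Algebra.FiniteType ℤ La := inferInstance
    exact Algebra.FiniteType.isNoetherianRing ℤ La
  have hfg : (LinearMap.ker θ.vecMulLinear : Submodule La (ι → La)).FG :=
    IsNoetherian.noetherian _
  obtain ⟨s, hs⟩ := hfg
  have hs1 : ∀ v ∈ s, v ᵥ* θ = 0 := by
    intro v hv
    have : v ∈ (LinearMap.ker θ.vecMulLinear : Submodule La (ι → La)) := by
      rw [← hs]; exact Submodule.subset_span hv
    exact this
  have hK : ∃ K : ℕ, ∀ v ∈ s, ∀ i, Sp (-K) K (v i) := by
    choose f hf using fun x : La => Sp_exists x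
    refine ⟨s.sup fun v => Finset.univ.sup fun i => f (v i), fun v hv i => ?_⟩
    have h1 : f (v i) ≤ s.sup fun v => Finset.univ.sup fun i => f (v i) :=
      (Finset.le_sup (f := fun i => f (v i)) (Finset.mem_univ i)).trans
        (Finset.le_sup (f := fun v : ι → La => Finset.univ.sup fun i => f (v i)) hv)
    exact Sp_mono _ _ _ _ _ (hf (v i)) (by omega) (by omega)
  obtain ⟨K, hK⟩ := hK
  set p : ℕ := 2 * K with hp
  have htfN : Module.IsTorsionFree ℤ (KK θ (p + 1)) := inferInstance
  have htfN' : Module.IsTorsionFree ℤ (KK θ p) := inferInstance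
  let b := Module.Free.chooseBasis ℤ (KK θ (p + 1))
  let b' := Module.Free.chooseBasis ℤ (KK θ p)
  let I := Module.Free.ChooseBasisIndex ℤ (KK θ (p + 1))
  let I' := Module.Free.ChooseBasisIndex ℤ (KK θ p)
  let inc : KK θ p →ₗ[ℤ] KK θ (p + 1) := Submodule.inclusion (KK_mono θ p)
  let mt : KK θ p →ₗ[ℤ] KK θ (p + 1) :=
    { toFun := fun x => ⟨tt • (x : ι → La), KK_tt θ p x x.2⟩
      map_add' := fun x y => Subtype.ext (smul_add _ _ _)
      map_smul' := fun a x => Subtype.ext (smul_comm _ _ _) }
  let c : KK θ (p + 1) →ₗ[ℤ] (I → La) :=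
    { toFun := fun n i => ((b.repr n i : ℤ) : La)
      map_add' := fun x y => by funext i; simp
      map_smul' := fun a x => by funext i; simp }
  have hc : ∀ n i, c n i = ((b.repr n i : ℤ) : La) := fun n i => rfl
  let Y : Matrix I ι La := fun i => (b i : ι → La)
  let D : Matrix I' I La := fun i' => tt • c (inc (b' i')) - c (mt (b' i'))
  have hY0 : ∀ i, Y i ᵥ* θ = 0 := fun i => (b i).2.1
  have hYs : ∀ i j, Sp 0 (p + 1) (Y i j) := fun i j => by
    have := (b i).2.2 j
    push_cast at this
    exact this
  -- (F1)
  have F1 : ∀ n : KK θ (p + 1), c n ᵥ* Y = (n : ι → La) := by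
    intro n
    have h1 : n = ∑ i, b.repr n i • b i := (b.sum_repr n).symm
    conv_rhs => rw [h1]
    rw [AddSubmonoidClass.coe_finsetSum, Matrix.vecMul_eq_sum]
    refine Finset.sum_congr rfl fun i _ => ?_
    rw [hc, Submodule.coe_smul]
    funext j
    simp [Y]
  -- the ℤ-span of the rows of `D`
  let S : Submodule La (I → La) := LinearMap.range D.vecMulLinear
  have hDS : ∀ i', D i' ∈ S := fun i' =>
    ⟨Pi.single i' 1, by rw [Matrix.vecMulLinear_apply, Matrix.single_one_vecMul]; rfl⟩
  have R0 : ∀ n : KK θ p, tt • c (inc n) - c (mt n) = ∑ i', b'.repr n i' • D i' := by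
    intro n
    have h1 : n = ∑ i', b'.repr n i' • b' i' := (b'.sum_repr n).symm
    conv_lhs => rw [h1]
    rw [map_sum, map_sum, map_sum, map_sum, Finset.smul_sum, ← Finset.sum_sub_distrib]
    refine Finset.sum_congr rfl fun i' _ => ?_
    rw [map_smul, map_smul, map_smul, map_smul, smul_comm, ← smul_sub]
  have R1 : ∀ n : KK θ p, tt • c (inc n) - c (mt n) ∈ S := by
    intro n
    rw [R0]
    exact Submodule.sum_mem _ fun i' _ => Submodule.smul_of_tower_mem _ _ (hDS i')
  -- `D * Y = 0`
  have F2 : ∀ n : KK θ p, (tt • c (inc n) - c (mt n)) ᵥ* Y = 0 := by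
    intro n
    rw [Matrix.sub_vecMul, Matrix.smul_vecMul, F1, F1]
    exact sub_self _
  have F2' : D * Y = 0 := by
    ext1 i' j
    exact congrFun (F2 (b' i')) j
  -- shifting exponents
  have shift : ∀ {μ : Type} [Fintype μ] (u : μ → La), ∃ k q : ℕ, ∀ i, Sp 0 q ((tp (k : ℤ) • u) i) := by
    intro μ _ u
    choose f hf using fun x : La => Sp_exists x
    refine ⟨Finset.univ.sup fun i => f (u i), 2 * Finset.univ.sup fun i => f (u i), fun i => ?_⟩
    have h1 : f (u i) ≤ Finset.univ.sup fun i => f (u i) :=
      Finset.le_sup (f := fun i => f (u i)) (Finset.mem_univ i)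
    have h2 := Sp_tp _ _ ((Finset.univ.sup fun i => f (u i) : ℕ) : ℤ) _ (hf (u i))
    exact Sp_mono _ _ _ _ _ h2 (by omega) (by omega)
  have unshift : ∀ {μ : Type} (k : ℤ) (u : μ → La), tp (-k) • (tp k • u) = u := by
    intro μ k u
    rw [smul_smul, tp_mul, neg_add_cancel, tp_zero, one_smul]
  refine ⟨I, inferInstance, Y, ?_, I', inferInstance, D, ?_, ?_⟩
  · -- the kernel of `θ` is generated by the rows of `Y`
    intro x
    constructor
    · intro hx
      have h1 : x ∈ LinearMap.range Y.vecMulLinear := by
        have h2 : x ∈ (LinearMap.ker θ.vecMulLinear : Submodule La (ι → La)) := hx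
        rw [← hs] at h2
        refine (Submodule.span_le.2 ?_) h2
        intro v hv
        have hv2 : tp (K : ℤ) • v ∈ KK θ (p + 1) := by
          refine ⟨by rw [Matrix.smul_vecMul, hs1 v hv, smul_zero], fun i => ?_⟩
          have := Sp_tp _ _ (K : ℤ) _ (hK v hv i)
          exact Sp_mono _ _ _ _ _ this (by omega) (by push_cast; omega)
        have h3 : tp (K : ℤ) • v ∈ LinearMap.range Y.vecMulLinear :=
          ⟨c ⟨_, hv2⟩, F1 ⟨_, hv2⟩⟩
        have h4 := Submodule.smul_mem _ (tp (-(K : ℤ))) h3
        rwa [unshift] at h4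
      obtain ⟨y, hy⟩ := h1
      exact ⟨y, hy⟩
    · rintro ⟨y, rfl⟩
      rw [Matrix.vecMul_vecMul]
      have : Y * θ = 0 := by
        ext1 i j
        exact congrFun (hY0 i) j
      rw [this, Matrix.vecMul_zero]
  · -- the relations between the rows of `Y` are generated by the rows of `D`
    intro x
    constructor
    · intro hx
      have key : ∀ (q : ℕ) (u : I → La), (∀ i, Sp 0 q (u i)) → u ᵥ* Y = 0 → u ∈ S := by
        intro q
        induction q with
        | zero =>
          intro u hu hu0
          have h1 : u = c (∑ i, ((u i).coeff (ofAdd 0)) • b i) := by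
            funext i
            rw [hc, map_sum, Finsupp.finsetSum_apply]
            simp only [map_smul, Finsupp.smul_apply, Module.Basis.repr_self,
              Finsupp.single_apply, smul_eq_mul, mul_ite, mul_one, mul_zero]
            rw [Finset.sum_ite_eq' Finset.univ i, if_pos (Finset.mem_univ _)]
            have := hu i
            rw [Nat.cast_zero] at this
            exact Sp_const _ this
          rw [h1, F1] at hu0
          have h2 : (∑ i, ((u i).coeff (ofAdd 0)) • b i) = 0 := Subtype.ext hu0
          rw [h1, h2, map_zero]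
          exact zero_mem _
        | succ q ih =>
          intro u hu hu0
          set z : I → ℤ := fun i => (u i).coeff (ofAdd ((q : ℤ) + 1)) with hz
          set w : KK θ (p + 1) := ∑ i, z i • b i with hw
          have hcw : ∀ i, c w i = ((z i : ℤ) : La) := by
            intro i
            rw [hc, hw, map_sum, Finsupp.finsetSum_apply]
            simp only [map_smul, Finsupp.smul_apply, Module.Basis.repr_self,
              Finsupp.single_apply, smul_eq_mul, mul_ite, mul_one, mul_zero]
            rw [Finset.sum_ite_eq' Finset.univ i, if_pos (Finset.mem_univ _)]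
          set u0 : I → La := u - tp ((q : ℤ) + 1) • c w with hu0d
          have hu0s : ∀ i, Sp 0 q (u0 i) := by
            intro i k hk
            have e1 : (u0 i).coeff (ofAdd k) = (u i).coeff (ofAdd k)
                - (if k = (q : ℤ) + 1 then z i else 0) := by
              rw [hu0d, Pi.sub_apply, Pi.smul_apply, smul_eq_mul, MonoidAlgebra.coeff_sub,
                Finsupp.sub_apply, coeff_tp_mul, hcw, int_single]
              change _ - (MonoidAlgebra.single (ofAdd 0) (z i)).coeff (ofAdd (k - (q + 1))) = _
              rw [coeff_single_ofAdd]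
              congr 1
              split_ifs with a1 a2 a2
              · rfl
              · omega
              · omega
              · rfl
            rw [e1] at hk
            by_cases hkq : k = (q : ℤ) + 1
            · rw [if_pos hkq, hkq] at hk
              exact absurd (sub_self _) hk
            · rw [if_neg hkq, sub_zero] at hk
              have := hu i k hk
              push_cast at this
              omega
          -- top coefficients of `w` vanish
          have hwtop : ∀ j, ((w : ι → La) j).coeff (ofAdd ((p : ℤ) + 1)) = 0 := by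
            intro j
            have h1 : (u0 ᵥ* Y) j = - (tp ((q : ℤ) + 1) * (w : ι → La) j) := by
              have : u0 ᵥ* Y = - (tp ((q : ℤ) + 1) • (w : ι → La)) := by
                rw [hu0d, Matrix.sub_vecMul, Matrix.smul_vecMul, F1, hu0, zero_sub]
              rw [this]
              rfl
            have h2 : Sp 0 ((q : ℤ) + (p + 1)) ((u0 ᵥ* Y) j) := by
              change Sp _ _ (∑ i, u0 i * Y i j)
              apply Sp_sum
              intro i _
              exact Sp_mono _ _ _ _ _ (Sp_mul _ _ _ _ _ _ (hu0s i) (hYs i j)) (by norm_num) le_rfl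
            by_contra hne
            have h3 := h2 (((q : ℤ) + 1) + (p + 1)) (by
              rw [h1, MonoidAlgebra.coeff_neg, Finsupp.neg_apply, coeff_tp_mul]
              rw [neg_ne_zero]
              have : ((q : ℤ) + 1) + (p + 1) - ((q : ℤ) + 1) = (p : ℤ) + 1 := by ring
              rw [this]
              exact hne)
            omega
          have hw' : (w : ι → La) ∈ KK θ p := KK_top θ p _ w.2 hwtop
          set n : KK θ p := ⟨(w : ι → La), hw'⟩ with hn
          have hincn : inc n = w := Subtype.ext rfl
          have hr := R1 n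
          rw [hincn] at hr
          have h4 : u - tp (q : ℤ) • (tt • c w - c (mt n)) ∈ S := by
            apply ih
            · intro i
              have e1 : (u - tp (q : ℤ) • (tt • c w - c (mt n))) i
                  = u0 i + tp (q : ℤ) * c (mt n) i := by
                rw [hu0d, tt_eq]
                simp only [Pi.sub_apply, Pi.smul_apply, smul_eq_mul, mul_sub]
                rw [← mul_assoc, tp_mul]
                abel
              rw [e1]
              apply Sp_add _ _ _ _ (hu0s i)
              rw [hc]
              have := Sp_tp _ _ (q : ℤ) _ (Sp_int (b.repr (mt n) i))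
              exact Sp_mono _ _ _ _ _ this (by omega) (by omega)
            · have := F2 n
              rw [hincn] at this
              rw [Matrix.sub_vecMul, Matrix.smul_vecMul, this, smul_zero, sub_zero, hu0]
          have h5 := add_mem h4 (S.smul_mem (tp (q : ℤ)) hr)
          rwa [sub_add_cancel] at h5
      obtain ⟨k, q, hkq⟩ := shift x
      have h1 : tp (k : ℤ) • x ∈ S := key q _ hkq (by rw [Matrix.smul_vecMul, hx, smul_zero])
      have h2 := S.smul_mem (tp (-(k : ℤ))) h1
      rw [unshift] at h2
      obtain ⟨y, hy⟩ := h2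
      exact ⟨y, hy⟩
    · rintro ⟨y, rfl⟩
      rw [Matrix.vecMul_vecMul, F2', Matrix.vecMul_zero]
  · -- the rows of `D` are independent
    intro x hx
    have top : ∀ (q : ℕ) (u : I' → La), (∀ i, Sp 0 q (u i)) → u ᵥ* D = 0 →
          ∀ i, (u i).coeff (ofAdd (q : ℤ)) = 0 := by
        intro q u hu hu0
        set z : I' → ℤ := fun i => (u i).coeff (ofAdd (q : ℤ)) with hz
        set n : KK θ p := ∑ i, z i • b' i with hn
        have hrep : ∀ i, b'.repr n i = z i := by
          intro i
          rw [hn, map_sum, Finsupp.finsetSum_apply]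
          simp only [map_smul, Finsupp.smul_apply, Module.Basis.repr_self,
            Finsupp.single_apply, smul_eq_mul, mul_ite, mul_one, mul_zero]
          rw [Finset.sum_ite_eq' Finset.univ i, if_pos (Finset.mem_univ _)]
        set u0 : I' → La := fun i => u i - tp (q : ℤ) * ((z i : ℤ) : La) with hu0d
        have hu0s : ∀ i, Sp 0 ((q : ℤ) - 1) (u0 i) := by
          intro i k hk
          have e1 : (u0 i).coeff (ofAdd k) = (u i).coeff (ofAdd k)
              - (if k = (q : ℤ) then z i else 0) := by
            rw [hu0d]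
            change (u i - tp (q : ℤ) * ((z i : ℤ) : La)).coeff (ofAdd k) = _
            rw [MonoidAlgebra.coeff_sub,
              Finsupp.sub_apply, coeff_tp_mul, int_single]
            change _ - (MonoidAlgebra.single (ofAdd 0) (z i)).coeff (ofAdd (k - q)) = _
            rw [coeff_single_ofAdd]
            congr 1
            split_ifs with a1 a2 a2
            · rfl
            · omega
            · omega
            · rfl
          rw [e1] at hk
          by_cases hkq : k = (q : ℤ)
          · rw [if_pos hkq, hkq] at hk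
            exact absurd (sub_self _) hk
          · rw [if_neg hkq, sub_zero] at hk
            have := hu i k hk
            omega
        have hDs : ∀ i j, Sp 0 1 (D i j) := by
          intro i j
          change Sp 0 1 (tt * c (inc (b' i)) j - c (mt (b' i)) j)
          rw [sub_eq_add_neg]
          apply Sp_add
          · rw [tt_eq, hc]
            exact Sp_mono _ _ _ _ _ (Sp_tp _ _ 1 _ (Sp_int _)) (by norm_num) (by norm_num)
          · apply Sp_neg
            rw [hc]
            exact Sp_mono _ _ _ _ _ (Sp_int _) le_rfl (by norm_num)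
        -- `z` times `D`
        have hzD : ∀ j, ∑ i, ((z i : ℤ) : La) * D i j = tt * c (inc n) j - c (mt n) j := by
          intro j
          have h1 := congrFun (R0 n) j
          simp only [Pi.sub_apply, Pi.smul_apply, smul_eq_mul, Finset.sum_apply, hrep] at h1
          rw [h1]
          refine Finset.sum_congr rfl fun i _ => ?_
          rw [zsmul_eq_mul]
        have hinc0 : ∀ j, b.repr (inc n) j = 0 := by
          intro j
          have h1 : (u0 ᵥ* D) j = - (tp (q : ℤ) * (tt * c (inc n) j - c (mt n) j)) := by
            have h2 : (u ᵥ* D) j = 0 := congrFun hu0 j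
            rw [← hzD j, Finset.mul_sum]
            change ∑ i, u0 i * D i j = _
            have h3 : ∑ i, u i * D i j = 0 := h2
            rw [hu0d]
            simp only [sub_mul, Finset.sum_sub_distrib, h3, zero_sub, mul_assoc]
          have h2 : Sp 0 (q : ℤ) ((u0 ᵥ* D) j) := by
            change Sp _ _ (∑ i, u0 i * D i j)
            apply Sp_sum
            intro i _
            exact Sp_mono _ _ _ _ _ (Sp_mul _ _ _ _ _ _ (hu0s i) (hDs i j)) (by norm_num)
              (by omega)
          by_contra hne
          have h3 := h2 ((q : ℤ) + 1) (by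
            rw [h1, MonoidAlgebra.coeff_neg, Finsupp.neg_apply, coeff_tp_mul, neg_ne_zero,
              MonoidAlgebra.coeff_sub, Finsupp.sub_apply, tt_eq, coeff_tp_mul, hc, hc,
              int_single, int_single]
            change (MonoidAlgebra.single (ofAdd 0) (b.repr (inc n) j)).coeff
                (ofAdd ((q : ℤ) + 1 - q - 1))
              - (MonoidAlgebra.single (ofAdd 0) (b.repr (mt n) j)).coeff
                (ofAdd ((q : ℤ) + 1 - q)) ≠ 0
            rw [coeff_single_ofAdd, coeff_single_ofAdd, if_pos (by ring), if_neg (by omega),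
              sub_zero]
            exact hne)
          omega
        have h5 : inc n = 0 := by
          apply b.repr.injective
          rw [map_zero]
          ext j
          rw [hinc0]
          rfl
        have h6 : n = 0 := Submodule.inclusion_injective (KK_mono θ p) (by rw [map_zero]; exact h5)
        intro i
        have := hrep i
        rw [h6, map_zero] at this
        exact this.symm
    have key : ∀ (q : ℕ) (u : I' → La), (∀ i, Sp 0 q (u i)) → u ᵥ* D = 0 → u = 0 := by
      intro q
      induction q with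
      | zero =>
        intro u hu hu0
        have h1 := top 0 u hu hu0
        funext i
        have h2 := hu i
        rw [Nat.cast_zero] at h2
        rw [Sp_const _ h2]
        have := h1 i
        rw [Nat.cast_zero] at this
        rw [this]
        simp
      | succ q ih =>
        intro u hu hu0
        have h1 := top (q + 1) u hu hu0
        apply ih
        · intro i z hz
          have h2 := hu i z hz
          have h3 : z ≠ ((q + 1 : ℕ) : ℤ) := fun e => hz (by rw [e]; exact h1 i)
          push_cast at h2 h3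
          omega
        · exact hu0
    obtain ⟨k, q, hkq⟩ := shift x
    have h1 : tp (k : ℤ) • x = 0 := key q _ hkq (by rw [Matrix.smul_vecMul, hx, smul_zero])
    have h2 : tp (-(k : ℤ)) • (tp (k : ℤ) • x) = 0 := by rw [h1, smul_zero]
    rw [unshift] at h2
    exact h2

end main

end TH57.FF
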